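import Pool.Agent.Helper51.FR.UPa

/-!
# Row UP, concrete part
-/

set_option autoImplicit false

namespace Pool.Agent.Helper20.FR

open Matrix Pool.Agent.Helper81.Fmr Pool.Agent.Helper42.FR Pool.Agent.Helper51.FR

universe u

section
variable {Y : Type} [DecidableEq Y] {q : ℕ}

/-- action on two coordinates -/
def act (a b : Y) (P : Fin q × Fin q → Fin q × Fin q) (y : Y → Fin q) : Y → Fin q :=
  fun c => if c = a then (P (y a, y b)).1 else if c = b then (P (y a, y b)).2 else y c

theorem act_a (a b : Y) (P : Fin q × Fin q → Fin q × Fin q) (y : Y → Fin q) :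
    act a b P y a = (P (y a, y b)).1 := by simp [act]

theorem act_b {a b : Y} (hab : a ≠ b) (P : Fin q × Fin q → Fin q × Fin q) (y : Y → Fin q) :
    act a b P y b = (P (y a, y b)).2 := by simp [act, hab.symm]

theorem act_ne {a b c : Y} (h1 : c ≠ a) (h2 : c ≠ b) (P : Fin q × Fin q → Fin q × Fin q)
    (y : Y → Fin q) : act a b P y c = y c := by simp [act, h1, h2]

theorem act_act {a b : Y} (hab : a ≠ b) (P P' : Fin q × Fin q → Fin q × Fin q) (y : Y → Fin q) :
    act a b P (act a b P' y) = act a b (P ∘ P') y := by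
  funext c
  have e : (act a b P' y a, act a b P' y b) = P' (y a, y b) := by
    rw [act_a, act_b hab]
  by_cases h1 : c = a
  · rw [h1, act_a a b P (act a b P' y), e, act_a a b (P ∘ P') y]
    rfl
  · by_cases h2 : c = b
    · rw [h2, act_b hab P (act a b P' y), e, act_b hab (P ∘ P') y]
      rfl
    · rw [act_ne h1 h2, act_ne h1 h2, act_ne h1 h2]

theorem act_id (a b : Y) (y : Y → Fin q) : act a b id y = y := by
  funext c
  unfold act
  split_ifs with h1 h2
  · rw [h1]
    rfl
  · rw [h2]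
    rfl
  · rfl

/-- the local permutation -/
def hp (a b : Y) (P : Equiv.Perm (Fin q × Fin q)) : Equiv.Perm (Y → Fin q) :=
  if hab : a = b then 1 else
    { toFun := act a b P
      invFun := act a b P.symm
      left_inv := fun y => by
        rw [act_act hab, Equiv.symm_comp_self, act_id]
      right_inv := fun y => by
        rw [act_act hab, Equiv.self_comp_symm, act_id] }

theorem hp_apply {a b : Y} (hab : a ≠ b) (P : Equiv.Perm (Fin q × Fin q)) (y : Y → Fin q) :
    hp a b P y = act a b P y := by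
  unfold hp
  rw [dif_neg hab]
  rfl

theorem hp_symm {a b : Y} (hab : a ≠ b) (P : Equiv.Perm (Fin q × Fin q)) (y : Y → Fin q) :
    (hp a b P).symm y = act a b P.symm y := by
  unfold hp
  rw [dif_neg hab]
  rfl

variable {G : Type}

/-- the permutation `H` -/
def HH (s : Equiv.Perm G) (x : G → Y) (P : Equiv.Perm (Fin q × Fin q)) :
    Equiv.Perm (G × (Y → Fin q)) where
  toFun c := (c.1, hp (x c.1) (x (s c.1)) P c.2)
  invFun c := (c.1, (hp (x c.1) (x (s c.1)) P).symm c.2)
  left_inv c := by simp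
  right_inv c := by simp

/-- lift of a permutation -/
def Lf (s : Equiv.Perm G) : Equiv.Perm (G × (Y → Fin q)) where
  toFun c := (s c.1, c.2)
  invFun c := (s⁻¹ c.1, c.2)
  left_inv c := by simp
  right_inv c := by simp

theorem Lf_apply (s : Equiv.Perm G) (c : G × (Y → Fin q)) : Lf s c = (s c.1, c.2) := rfl

theorem Lf_inv (s : Equiv.Perm G) (c : G × (Y → Fin q)) : (Lf s)⁻¹ c = (s⁻¹ c.1, c.2) := rfl

/-- the two coordinates -/
def p2 (s : Equiv.Perm G) (x : G → Y) (c : G × (Y → Fin q)) : Fin q × Fin q :=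
  (c.2 (x c.1), c.2 (x (s c.1)))

theorem HH_apply (s : Equiv.Perm G) (x : G → Y) (P : Equiv.Perm (Fin q × Fin q))
    (c : G × (Y → Fin q)) : HH s x P c = (c.1, hp (x c.1) (x (s c.1)) P c.2) := rfl

theorem HH_inv1 (s : Equiv.Perm G) (x : G → Y) (P : Equiv.Perm (Fin q × Fin q))
    (c : G × (Y → Fin q)) : ((HH s x P)⁻¹ c).1 = c.1 := rfl

theorem HH_inv2 (s : Equiv.Perm G) (x : G → Y) (P : Equiv.Perm (Fin q × Fin q))
    (c : G × (Y → Fin q)) (h : x c.1 ≠ x (s c.1)) :
    p2 s x ((HH s x P)⁻¹ c) = P⁻¹ (p2 s x c) := by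
  have e : (HH s x P)⁻¹ c = (c.1, act (x c.1) (x (s c.1)) P.symm c.2) := by
    have : (HH s x P)⁻¹ c = (c.1, (hp (x c.1) (x (s c.1)) P).symm c.2) := rfl
    rw [this, hp_symm h]
  rw [e]
  unfold p2
  dsimp only
  rw [act_a, act_b h]
  rfl

/-- the weight -/
def wA (F : Type u) [Field F] (x : G → Y) (k : ℕ) (c : G × (Y → Fin q)) : F :=
  if ((c.2 (x c.1) : Fin q) : ℕ) < k then 1 else 0

theorem cnt1 (F : Type u) [Field F] [Fintype G] [Fintype Y] (x : G → Y) (k : ℕ) :
    Nat.card {c : G × (Y → Fin q) // wA F x k c ≠ 0} * q ≤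
      Fintype.card G * (k * Fintype.card (Y → Fin q)) := by
  classical
  have hlt : ∀ c : {c : G × (Y → Fin q) // wA F x k c ≠ 0}, (c.1.2 (x c.1.1)).val < k := by
    intro c
    by_contra h
    exact c.2 (if_neg h)
  let f : {c : G × (Y → Fin q) // wA F x k c ≠ 0} × Fin q → G × (Fin k × (Y → Fin q)) :=
    fun p => (p.1.1.1, ⟨(p.1.1.2 (x p.1.1.1)).val, hlt p.1⟩,
      Function.update p.1.1.2 (x p.1.1.1) p.2)
  have hf : Function.Injective f := by
    rintro ⟨⟨⟨g, y⟩, hc⟩, u⟩ ⟨⟨⟨g', y'⟩, hc'⟩, u'⟩ h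
    simp only [f, Prod.mk.injEq, Fin.mk.injEq] at h
    obtain ⟨hg, h1, h2⟩ := h
    subst hg
    have hu : u = u' := by
      have := congrFun h2 (x g)
      simpa using this
    have hy : y = y' := by
      funext c
      by_cases hcx : c = x g
      · rw [hcx]
        exact Fin.ext h1
      · have := congrFun h2 c
        rwa [Function.update_of_ne hcx, Function.update_of_ne hcx] at this
    subst hu
    subst hy
    rfl
  have := Nat.card_le_card_of_injective f hf
  rw [Nat.card_prod, Nat.card_prod, Nat.card_prod] at this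
  simpa [Nat.card_eq_fintype_card] using this

theorem cnt2 [Fintype G] [DecidableEq G] [Fintype Y] (s : Equiv.Perm G) (x : G → Y)
    (R : Finset (Fin q × Fin q)) (hR : R.card ≤ 1) :
    ((Finset.univ : Finset (G × (Y → Fin q))).filter
      (fun c => x c.1 ≠ x (s c.1) ∧ p2 s x c ∈ R)).card * (q * q) ≤
      Fintype.card G * Fintype.card (Y → Fin q) := by
  classical
  have e1 : q * q = (Finset.univ : Finset (Fin q × Fin q)).card := by simp
  have e2 : Fintype.card G * Fintype.card (Y → Fin q) =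
      (Finset.univ : Finset (G × (Y → Fin q))).card := by
    rw [Finset.card_univ, Fintype.card_prod]
  rw [e1, e2, ← Finset.card_product]
  refine Finset.card_le_card_of_injOn (fun p => (p.1.1,
    Function.update (Function.update p.1.2 (x p.1.1) p.2.1) (x (s p.1.1)) p.2.2))
    (fun _ _ => Finset.mem_coe.2 (Finset.mem_univ _)) ?_
  rintro ⟨⟨g, y⟩, ⟨u, v⟩⟩ h1 ⟨⟨g', y'⟩, ⟨u', v'⟩⟩ h2 h
  simp only [Finset.coe_product, Finset.coe_filter, Finset.mem_univ, true_and,
    Finset.coe_univ, Set.mem_prod, Set.mem_setOf_eq, Set.mem_univ, and_true] at h1 h2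
  simp only [Prod.mk.injEq] at h
  obtain ⟨hg, h3⟩ := h
  subst hg
  obtain ⟨hne, hm⟩ := h1
  obtain ⟨-, hm'⟩ := h2
  have hv : v = v' := by
    have := congrFun h3 (x (s g))
    simpa using this
  have hu : u = u' := by
    have := congrFun h3 (x g)
    rw [Function.update_of_ne hne, Function.update_of_ne hne] at this
    simpa using this
  have hp := Finset.card_le_one.1 hR _ hm _ hm'
  unfold p2 at hp
  simp only [Prod.mk.injEq] at hp
  have hy : y = y' := by
    funext c
    by_cases hc1 : c = x g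
    · rw [hc1]
      exact hp.1
    · by_cases hc2 : c = x (s g)
      · rw [hc2]
        exact hp.2
      · have := congrFun h3 c
        rwa [Function.update_of_ne hc2, Function.update_of_ne hc2, Function.update_of_ne hc1,
          Function.update_of_ne hc1] at this
  subst hu
  subst hv
  subst hy
  rfl

theorem EW_eq (F : Type u) [Field F] (s : Equiv.Perm G) (x : G → Y)
    (P : Equiv.Perm (Fin q × Fin q)) (k : ℕ) (AA : Fin 5 → Finset (Fin q × Fin q))
    (a0 : ∀ y, y ∈ AA 0 ↔ (y.1 : ℕ) < k) (a1 : ∀ y, P y ∈ AA 1 ↔ y ∈ AA 0)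
    (a2 : ∀ y, P y ∈ AA 2 ↔ y ∈ AA 1) (a3 : ∀ y, P y ∈ AA 3 ↔ y ∈ AA 2)
    (a4 : ∀ y, P (P (P (P y))) ∈ AA 4 ↔ ((y.1 : ℕ) < k ∧ (y.2 : ℕ) < k))
    (c : G × (Y → Fin q)) (h : x c.1 ≠ x (s c.1)) (i : Fin 5) :
    EW (Lf s) (HH s x P) (wA F x k) i c = if p2 s x c ∈ AA i then 1 else 0 := by
  have w1 : ∀ d : G × (Y → Fin q), wA F x k d = if p2 s x d ∈ AA 0 then 1 else 0 := by
    intro d
    unfold wA
    simp only [a0]
    rfl
  have w2 : ∀ d : G × (Y → Fin q), wA F x k (Lf s d) =
      if (((p2 s x d).2 : Fin q) : ℕ) < k then 1 else 0 := fun d => rfl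
  set c1 := (HH s x P)⁻¹ c with hc1
  set c2 := (HH s x P)⁻¹ c1 with hc2
  set c3 := (HH s x P)⁻¹ c2 with hc3
  set c4 := (HH s x P)⁻¹ c3 with hc4
  have n1 : x c1.1 ≠ x (s c1.1) := h
  have n2 : x c2.1 ≠ x (s c2.1) := h
  have n3 : x c3.1 ≠ x (s c3.1) := h
  have q1 : P (p2 s x c1) = p2 s x c := by
    rw [hc1, HH_inv2 s x P c h]
    simp
  have q2 : P (p2 s x c2) = p2 s x c1 := by
    rw [hc2, HH_inv2 s x P c1 n1]
    simp
  have q3 : P (p2 s x c3) = p2 s x c2 := by
    rw [hc3, HH_inv2 s x P c2 n2]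
    simp
  have q4 : P (p2 s x c4) = p2 s x c3 := by
    rw [hc4, HH_inv2 s x P c3 n3]
    simp
  fin_cases i
  · exact w1 c
  · show wA F x k c1 = _
    rw [w1, ← q1]
    simp only [← a1]
    rfl
  · show wA F x k c2 = _
    rw [w1, ← q1, ← q2]
    simp only [← a1, ← a2]
    rfl
  · show wA F x k c3 = _
    rw [w1, ← q1, ← q2, ← q3]
    simp only [← a1, ← a2, ← a3]
    rfl
  · show wA F x k c4 * wA F x k (Lf s c4) = _
    rw [w1, w2, ← q1, ← q2, ← q3, ← q4]
    have := a4 (p2 s x c4)
    show _ = if P (P (P (P (p2 s x c4)))) ∈ AA 4 then (1 : F) else 0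
    have h0 := a0 (p2 s x c4)
    by_cases u1 : ((p2 s x c4).1 : ℕ) < k
    · by_cases u2 : ((p2 s x c4).2 : ℕ) < k
      · rw [if_pos (h0.2 u1), if_pos u2, if_pos (this.2 ⟨u1, u2⟩), mul_one]
      · rw [if_neg u2, if_neg (fun h => u2 (this.1 h).2), mul_zero]
    · rw [if_neg (fun h => u1 (h0.1 h)), if_neg (fun h => u1 (this.1 h).1), zero_mul]

end

theorem st_UP (F : Type u) [Field F] (h1 : ST_FO) (h2 : ST_HH) (h3 : ST_CF) : ST_UP F := by
  intro η hη
  obtain ⟨N, hN⟩ := exists_nat_gt (2 / η)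
  have hN0 : (0 : ℝ) < N := lt_trans (by positivity) hN
  have hNp : 0 < N := by exact_mod_cast hN0
  obtain ⟨q, k, hqN, hkq, heq, hk⟩ := h3 N
  obtain ⟨G, Y, i1, i2, i3, i4, i5, s, t, x, bad, hbad, hg⟩ := h1 N hNp
  obtain ⟨P, AA, a0, a1, a2, a3, a4, adis, acov⟩ := h2 q k hkq heq
  have hq0 : 0 < q := by omega
  haveI : Nonempty (Fin q) := ⟨⟨0, hq0⟩⟩
  set R : Finset (Fin q × Fin q) := Finset.univ \ (Finset.univ.biUnion AA) with hRd
  set badZ : Finset (G × (Y → Fin q)) := Finset.univ.filter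
    (fun c => c.1 ∈ bad ∨ p2 s x c ∈ R) with hbZ
  obtain ⟨z, z1, z2, bad', z3, z4, z5⟩ := core (F := F) (Lf s) (Lf t) (HH s x P) (wA F x k) badZ
    (fun c => by unfold wA; split_ifs <;> simp) (fun c hc => by
      obtain ⟨g, y⟩ := c
      rw [hbZ, Finset.mem_filter] at hc
      push Not at hc
      obtain ⟨hgb, hpR⟩ := hc (Finset.mem_univ _)
      obtain ⟨g1, g2, g3, g4, g5, g6, g7, g8⟩ := hg g hgb
      have hE := EW_eq F s x P k AA a0 a1 a2 a3 a4 (g, y) g1
      refine ⟨?_, ?_, ?_, ?_, ?_, ?_, ?_, ?_⟩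
      · show (s (t (s⁻¹ (t (s (t⁻¹ g))))), y) = (s⁻¹ (t (s (t⁻¹ (s (t g))))), y)
        rw [g8]
      · show (s (t g), hp (x g) (x (s g)) P y) =
          (s (t g), hp (x (s (t g))) (x (s (s (t g)))) P y)
        rw [g4, g5]
      · show (if ((y (x (s (t g))) : Fin q) : ℕ) < k then (1 : F) else 0) =
          if ((y (x g) : Fin q) : ℕ) < k then 1 else 0
        rw [g4]
      · show (if ((y (x (s⁻¹ (t g))) : Fin q) : ℕ) < k then (1 : F) else 0) =
          if ((y (x (s⁻¹ g)) : Fin q) : ℕ) < k then 1 else 0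
        rw [g6]
      · show (if ((y (x (s⁻¹ (s⁻¹ (t (s (t⁻¹ g)))))) : Fin q) : ℕ) < k then (1 : F) else 0) =
          if ((y (x (s⁻¹ g)) : Fin q) : ℕ) < k then 1 else 0
        rw [g7]
      · show (if ((hp (x g) (x (s g)) P y (x (s⁻¹ g)) : Fin q) : ℕ) < k then (1 : F) else 0) =
          if ((y (x (s⁻¹ g)) : Fin q) : ℕ) < k then 1 else 0
        rw [hp_apply g1, act_ne g2.symm g3.symm]
      · intro i j hij
        rw [hE, hE]
        split_ifs with e1 e2
        · exact absurd e2 (Finset.disjoint_left.1 (adis i j hij) e1)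
        · simp
        · simp
        · simp
      · have hm : ∃ i, p2 s x (g, y) ∈ AA i := by
          by_contra hne
          push Not at hne
          apply hpR
          rw [hRd, Finset.mem_sdiff]
          refine ⟨Finset.mem_univ _, fun hb => ?_⟩
          rw [Finset.mem_biUnion] at hb
          obtain ⟨i, -, hi⟩ := hb
          exact hne i hi
        obtain ⟨i, hi⟩ := hm
        have hz : EW (Lf s) (HH s x P) (wA F x k) i (g, y) - 1 = 0 := by
          rw [hE, if_pos hi, sub_self]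
        fin_cases i
        · have hz' : EW (Lf s) (HH s x P) (wA F x k) 0 (g, y) - 1 = 0 := hz
          rw [hz']
          ring
        · have hz' : EW (Lf s) (HH s x P) (wA F x k) 1 (g, y) - 1 = 0 := hz
          rw [hz']
          ring
        · have hz' : EW (Lf s) (HH s x P) (wA F x k) 2 (g, y) - 1 = 0 := hz
          rw [hz']
          ring
        · have hz' : EW (Lf s) (HH s x P) (wA F x k) 3 (g, y) - 1 = 0 := hz
          rw [hz']
          ring
        · have hz' : EW (Lf s) (HH s x P) (wA F x k) 4 (g, y) - 1 = 0 := hz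
          rw [hz']
          ring)
  have hcard : Fintype.card (G × (Y → Fin q)) = Fintype.card G * Fintype.card (Y → Fin q) :=
    Fintype.card_prod _ _
  have hG : 0 < Fintype.card G := Fintype.card_pos
  have hQ : 0 < Fintype.card (Y → Fin q) := Fintype.card_pos
  refine ⟨Fintype.card (G × (Y → Fin q)), by rw [hcard]; positivity, z, z1, ?_, bad', ?_, z4, z5⟩
  · have c1 := cnt1 F (q := q) x k
    have c1' : (Nat.card {c : G × (Y → Fin q) // wA F x k c ≠ 0} : ℝ) * q ≤
        Fintype.card G * (k * Fintype.card (Y → Fin q)) := by exact_mod_cast c1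
    have hq0' : (0 : ℝ) < q := by exact_mod_cast hq0
    have z2' : ((z .e).rank : ℝ) ≤ Nat.card {c : G × (Y → Fin q) // wA F x k c ≠ 0} := by
      exact_mod_cast z2
    refine z2'.trans ?_
    rw [hcard]
    push_cast
    rw [← le_div_iff₀ hq0'] at c1'
    refine c1'.trans ?_
    have e : (Fintype.card G : ℝ) * (k * Fintype.card (Y → Fin q)) / q =
        (k : ℝ) / q * (Fintype.card G * Fintype.card (Y → Fin q)) := by ring
    rw [e]
    have hpos : (0 : ℝ) ≤ Fintype.card G * Fintype.card (Y → Fin q) := by positivity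
    exact mul_le_mul_of_nonneg_right hk hpos
  · have c2 := cnt2 (q := q) s x R acov
    have hsub : badZ ⊆ (bad ×ˢ (Finset.univ : Finset (Y → Fin q))) ∪
        (Finset.univ.filter (fun c : G × (Y → Fin q) => x c.1 ≠ x (s c.1) ∧ p2 s x c ∈ R)) := by
      intro c hc
      rw [hbZ, Finset.mem_filter] at hc
      by_cases hcb : c.1 ∈ bad
      · exact Finset.mem_union_left _ (Finset.mem_product.2 ⟨hcb, Finset.mem_univ _⟩)
      · refine Finset.mem_union_right _ (Finset.mem_filter.2 ⟨Finset.mem_univ _, (hg _ hcb).1, ?_⟩)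
        rcases hc.2 with h | h
        · exact absurd h hcb
        · exact h
    have hle := (Finset.card_le_card hsub).trans (Finset.card_union_le _ _)
    rw [Finset.card_product, Finset.card_univ] at hle
    set B2 := (Finset.univ.filter
      (fun c : G × (Y → Fin q) => x c.1 ≠ x (s c.1) ∧ p2 s x c ∈ R)).card
    rw [z3, hcard]
    push_cast
    have r1 : (badZ.card : ℝ) ≤ bad.card * Fintype.card (Y → Fin q) + B2 := by exact_mod_cast hle
    have r2 : (B2 : ℝ) * (q * q) ≤ Fintype.card G * Fintype.card (Y → Fin q) := by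
      exact_mod_cast c2
    have r3 : (bad.card : ℝ) * N ≤ Fintype.card G := by exact_mod_cast hbad
    have hQr : (0 : ℝ) < Fintype.card (Y → Fin q) := by exact_mod_cast hQ
    have hGr : (0 : ℝ) < Fintype.card G := by exact_mod_cast hG
    have r4 : (bad.card : ℝ) * Fintype.card (Y → Fin q) * N ≤
        Fintype.card G * Fintype.card (Y → Fin q) := by
      have := mul_le_mul_of_nonneg_right r3 hQr.le
      linarith
    have r5 : (B2 : ℝ) * N ≤ Fintype.card G * Fintype.card (Y → Fin q) := by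
      refine le_trans ?_ r2
      have hNq : (N : ℝ) ≤ q := by exact_mod_cast hqN
      have hq1 : (1 : ℝ) ≤ q := by exact_mod_cast hq0
      have : (N : ℝ) ≤ q * q := by nlinarith
      exact mul_le_mul_of_nonneg_left this (Nat.cast_nonneg _)
    have r6 : (badZ.card : ℝ) * N ≤ 2 * (Fintype.card G * Fintype.card (Y → Fin q)) := by
      have := mul_le_mul_of_nonneg_right r1 hN0.le
      linarith
    have r7 : 2 ≤ η * N := by
      rw [div_lt_iff₀ hη] at hN
      linarith
    have r8 : (badZ.card : ℝ) * N ≤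
        (η * (Fintype.card G * Fintype.card (Y → Fin q))) * N := by
      have hpos : (0 : ℝ) ≤ Fintype.card G * Fintype.card (Y → Fin q) := by positivity
      have := mul_le_mul_of_nonneg_right r7 hpos
      linarith
    exact le_of_mul_le_mul_right r8 hN0

end Pool.Agent.Helper20.FR
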